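import Pool.Agent.W399.WP.GStm

/-!
# A boundary in the first word
-/

set_option autoImplicit false

namespace Pool.Agent.W585.WP399

open Pool.Agent.W399.WP Pool.Agent.H966R2.CF

theorem uniq {A : Type} (U U' X X' : List A)
    (h : U.map some ++ none :: X.map some = U'.map some ++ none :: X'.map some) :
    U = U' ∧ X = X' := by
  induction U generalizing U' with
  | nil =>
    cases U' with
    | nil =>
      simp only [List.map_nil, List.nil_append, List.cons.injEq, true_and] at h
      exact ⟨rfl, List.map_injective_iff.2 (Option.some_injective A) h⟩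
    | cons a t => simp at h
  | cons a t ih =>
    cases U' with
    | nil => simp at h
    | cons b t' =>
      simp only [List.map_cons, List.cons_append, List.cons.injEq, Option.some.injEq] at h
      obtain ⟨h1, h2⟩ := ih t' h.2
      exact ⟨by rw [h.1, h1], h2⟩

/-- where is the letter `#` -/
theorem sp {A : Type} (u w : List (Option A)) (P Q : List A)
    (h : u ++ w = P.map some ++ none :: Q.map some) :
    (∃ Q1 Q2, Q = Q1 ++ Q2 ∧ u = P.map some ++ none :: Q1.map some ∧ w = Q2.map some) ∨
    (∃ P1 P2, P = P1 ++ P2 ∧ u = P1.map some ∧ w = P2.map some ++ none :: Q.map some) := by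
  induction u generalizing P with
  | nil => exact Or.inr ⟨[], P, rfl, rfl, h⟩
  | cons x u ih =>
    cases P with
    | nil =>
      simp only [List.map_nil, List.nil_append, List.cons_append, List.cons.injEq] at h
      obtain ⟨rfl, h⟩ := h
      obtain ⟨Q1, Q2, h1, h2, h3⟩ := List.map_eq_append_iff.1 h.symm
      exact Or.inl ⟨Q1, Q2, h1, by rw [← h2]; rfl, h3.symm⟩
    | cons p P =>
      simp only [List.map_cons, List.cons_append, List.cons.injEq] at h
      obtain ⟨rfl, h⟩ := h
      rcases ih P h with ⟨Q1, Q2, h1, h2, h3⟩ | ⟨P1, P2, h1, h2, h3⟩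
      · exact Or.inl ⟨Q1, Q2, h1, by rw [h2]; rfl, h3⟩
      · exact Or.inr ⟨p :: P1, P2, by rw [h1]; rfl, by rw [h2]; rfl, h3⟩

section
variable {M : Type} [CancelMonoid M] {A : Type} (φ : A → M) (g : ContextFreeGrammar (Option A))

theorem val (hL : g.language = WPM φ) {U V : List A} (h : (U, V) ∈ CG g (st g)) :
    pr φ U = pr φ V := by
  have h1 : (U.map some ++ none :: V.reverse.map some : List (Option A)) ∈ g.language :=
    D.derives h
  rw [hL] at h1
  obtain ⟨u, v, -, -, h2, h3⟩ := h1
  obtain ⟨h4, h5⟩ := uniq _ _ _ _ h3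
  rw [h4, List.reverse_injective h5]
  exact h2

theorem forms_suffix {α β : Fm g} (h : α ∈ Forms g) (hs : β <:+ α) : β ∈ Forms g := by
  rcases h with h | ⟨r, hr, h⟩
  · exact Or.inl (hs.trans h)
  · exact Or.inr ⟨r, hr, hs.trans h⟩

theorem ctx_step {α β : Fm g} {a v : List A} (h : HasCtx g α) (hs : Step (CG g) α a v β) :
    HasCtx g β := by
  obtain ⟨a', v', h'⟩ := h
  exact ⟨a' ++ a, v' ++ v, h'.trans hs⟩

theorem main (hL : g.language = WPM φ) {α : Fm g} {w : List (Option A)}
    (h : D g Set.univ α w) : ∀ U₁ U₂ V : List A,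
    w = (U₁ ++ U₂).map some ++ none :: V.reverse.map some → α ∈ Forms g → HasCtx g α →
    ∃ y ∈ Forms g, ∃ a b₁ b₂ c v₁ v₂ : List A, U₁ = a ++ b₁ ∧ U₂ = b₂ ++ c ∧ V = v₁ ++ v₂ ∧
      Step (CG g) α a v₁ y ∧ (b₁ ++ U₂, v₂) ∈ CG g y ∧
      ((b₁ = [] ∧ b₂ = []) ∨ (b₁ ≠ [] ∧ b₂ ≠ [] ∧ pr φ (b₁ ++ b₂) ∈ EG g φ)) := by
  induction h with
  | nil =>
    intro U₁ U₂ V he
    simp at he
  | term t α' w' h ih =>
    intro U₁ U₂ V he hF hC
    cases U₁ with
    | nil =>
      refine ⟨_, hF, [], [], [], U₂, [], V, rfl, rfl, rfl, Step.refl _, ?_, Or.inl ⟨rfl, rfl⟩⟩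
      show D g Set.univ _ _
      rw [← he]
      exact D.term _ _ _ h
    | cons u U₁ =>
      simp only [List.cons_append, List.map_cons, List.cons.injEq] at he
      obtain ⟨rfl, he⟩ := he
      have hst : Step (CG g) (Symbol.terminal (some u) :: α') [u] [] α' := by
        intro U V' hUV
        exact D.term _ _ _ hUV
      obtain ⟨y, hy, a, b₁, b₂, c, v₁, v₂, e1, e2, e3, e4, e5, e6⟩ := ih U₁ U₂ V he
        (forms_suffix g hF (List.suffix_cons _ _)) (ctx_step g hC hst)
      refine ⟨y, hy, u :: a, b₁, b₂, c, v₁, v₂, by rw [e1]; rfl, e2, e3, ?_, e5, e6⟩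
      exact hst.trans e4
  | nonterm r hr hS α' u w' h1 h2 ih1 ih2 =>
    intro U₁ U₂ V he hF hC
    by_cases hU : U₁ = []
    · subst hU
      refine ⟨_, hF, [], [], [], U₂, [], V, rfl, rfl, rfl, Step.refl _, ?_, Or.inl ⟨rfl, rfl⟩⟩
      show D g Set.univ _ _
      rw [List.nil_append] at he ⊢
      rw [← he]
      exact D.nonterm r hr hS _ _ _ h1 h2
    rcases sp u w' (U₁ ++ U₂) V.reverse he with ⟨Q1, Q2, hQ, hu, hw⟩ | ⟨P1, P2, hP, hu, hw⟩
    · -- the letter is in the first part
      have hV : V = Q2.reverse ++ Q1.reverse := by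
        rw [← List.reverse_append, ← hQ, List.reverse_reverse]
      have hst : Step (CG g) (Symbol.nonterminal r.input :: α') [] Q2.reverse r.output := by
        intro U V' hUV
        have := D.nonterm r hr hS α' _ _ hUV h2
        show D g Set.univ _ _
        rw [hw] at this
        convert this using 1
        simp
      obtain ⟨y, hy, a, b₁, b₂, c, v₁, v₂, e1, e2, e3, e4, e5, e6⟩ := ih1 U₁ U₂ Q1.reverse
        (by rw [hu, List.reverse_reverse]) (Or.inr ⟨r, hr, List.suffix_refl _⟩)
        (ctx_step g hC hst)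
      refine ⟨y, hy, a, b₁, b₂, c, Q2.reverse ++ v₁, v₂, e1, e2, ?_, ?_, e5, e6⟩
      · rw [hV, e3, List.append_assoc]
      · exact hst.trans e4
    · -- the letter is in the second part
      have hst : Step (CG g) (Symbol.nonterminal r.input :: α') P1 [] α' := by
        intro U V' hUV
        have := D.nonterm r hr hS α' _ _ h1 hUV
        show D g Set.univ _ _
        rw [hu] at this
        convert this using 1
        simp
      have key : ∀ U₁' : List A, U₁ = P1 ++ U₁' → P2 = U₁' ++ U₂ →
          ∃ y ∈ Forms g, ∃ a b₁ b₂ c v₁ v₂ : List A, U₁ = a ++ b₁ ∧ U₂ = b₂ ++ c ∧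
          V = v₁ ++ v₂ ∧ Step (CG g) (Symbol.nonterminal r.input :: α') a v₁ y ∧
          (b₁ ++ U₂, v₂) ∈ CG g y ∧
          ((b₁ = [] ∧ b₂ = []) ∨ (b₁ ≠ [] ∧ b₂ ≠ [] ∧ pr φ (b₁ ++ b₂) ∈ EG g φ)) := by
        intro U₁' k1 k2
        obtain ⟨y, hy, a, b₁, b₂, c, v₁, v₂, e1, e2, e3, e4, e5, e6⟩ := ih2 U₁' U₂ V
          (by rw [hw, k2]) (forms_suffix g hF (List.suffix_cons _ _)) (ctx_step g hC hst)
        refine ⟨y, hy, P1 ++ a, b₁, b₂, c, v₁, v₂, ?_, e2, e3, ?_, e5, e6⟩
        · rw [k1, e1, List.append_assoc]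
        · exact hst.trans e4
      rcases List.append_eq_append_iff.1 hP with ⟨b₂, k1, k2⟩ | ⟨U₁', k1, k2⟩
      · by_cases hb : b₂ = []
        · subst hb
          rw [List.append_nil] at k1
          rw [List.nil_append] at k2
          exact key [] (by rw [k1, List.append_nil]) (by rw [k2, List.nil_append])
        · refine ⟨_, hF, [], U₁, b₂, P2, [], V, rfl, k2, rfl, Step.refl _, ?_,
            Or.inr ⟨hU, hb, ?_⟩⟩
          · show D g Set.univ _ _
            have := D.nonterm r hr hS α' _ _ h1 h2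
            rw [he] at this
            exact this
          · rw [← k1]
            obtain ⟨a, v, hav⟩ := hC
            have hD1 : Dv g r.output P1 := by
              show D g Set.univ _ _
              rw [← hu]
              exact h1
            refine ⟨r.output, Or.inr ⟨r, hr, List.suffix_refl _⟩, Or.inl ⟨?_, P1, hD1, rfl⟩⟩
            refine ⟨pr φ a, pr φ P2, pr φ (v ++ V), fun w0 hw0 => ?_⟩
            have h3 : (w0 ++ P2, V) ∈ CG g (Symbol.nonterminal r.input :: α') := by
              have := D.nonterm r hr hS α' _ _ hw0 h2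
              show D g Set.univ _ _
              rw [hw] at this
              convert this using 1
              simp
            have h4 := val φ g hL (hav _ _ h3)
            rw [← h4, pr_append, pr_append, mul_assoc]
      · exact key U₁' k1 k2

end

theorem gu : S_GU := by
  intro M _ A φ g hL α hF hC U₁ U₂ V h
  exact main φ g hL h U₁ U₂ V rfl hF hC

end Pool.Agent.W585.WP399

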